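import Pool.Agent.helper58.CRO.SpecA

/-!
# MP_5bf3c3_gt, row SIG: the half-mass map
-/

open scoped Manifold ContDiff Topology ENNReal
open MeasureTheory Set

noncomputable section

namespace Pool.Agent.CRO

theorem SIG : SIG_stmt := by
  intro a w ha hw hpos heven
  obtain ⟨x0, hx0, hmin⟩ :=
    isCompact_Icc.exists_isMinOn (nonempty_Icc.2 ha.le) (hw.continuousOn (s := Icc 0 a))
  have hproj : ∀ r : ℝ, max 0 (min r a) ∈ Icc (0 : ℝ) a := fun r =>
    ⟨le_max_left _ _, max_le ha.le (min_le_right _ _)⟩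
  obtain ⟨v, hvdef⟩ : ∃ v : ℝ → ℝ, ∀ r, v r = w (max 0 (min r a)) := ⟨_, fun _ => rfl⟩
  have hvc : Continuous v := by
    have h1 : Continuous fun r : ℝ => w (max 0 (min r a)) :=
      hw.comp (continuous_const.max (continuous_id.min continuous_const))
    have h2 : v = fun r : ℝ => w (max 0 (min r a)) := funext hvdef
    rw [h2]; exact h1
  have hm : ∀ r, w x0 ≤ v r := fun r => by
    rw [hvdef]; exact hmin (hproj r)
  have hm0 : 0 < w x0 := hpos x0
  have hvi : ∀ x y, IntervalIntegrable v volume x y := fun x y => hvc.intervalIntegrable x y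
  have hwi : ∀ x y, IntervalIntegrable w volume x y := fun x y => hw.intervalIntegrable x y
  obtain ⟨F, hFdef⟩ : ∃ F : ℝ → ℝ, ∀ x, F x = ∫ r in (0 : ℝ)..x, v r := ⟨_, fun _ => rfl⟩
  have hdiff : ∀ x y, F y - F x = ∫ r in x..y, v r := by
    intro x y
    rw [hFdef, hFdef]
    exact intervalIntegral.integral_interval_sub_left (hvi 0 y) (hvi 0 x)
  have hlow : ∀ x y, x ≤ y → w x0 * (y - x) ≤ F y - F x := by
    intro x y hxy
    rw [hdiff]
    have h1 : ∫ r in x..y, (w x0 : ℝ) = (y - x) * w x0 := by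
      rw [intervalIntegral.integral_const, smul_eq_mul]
    have h2 : ∫ r in x..y, (w x0 : ℝ) ≤ ∫ r in x..y, v r :=
      intervalIntegral.integral_mono_on hxy intervalIntegrable_const (hvi x y)
        (fun r _ => hm r)
    linarith
  have hF0 : F 0 = 0 := by rw [hFdef]; simp
  have hmono : StrictMono F := by
    intro x y hxy
    have h1 := hlow x y hxy.le
    have h2 : 0 < w x0 * (y - x) := mul_pos hm0 (by linarith)
    linarith
  have hFc : Continuous F := by
    have h2 : F = fun x => ∫ r in (0 : ℝ)..x, v r := funext hFdef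
    rw [h2]
    exact intervalIntegral.continuous_primitive hvi 0
  have htop : Filter.Tendsto F Filter.atTop Filter.atTop := by
    refine Filter.tendsto_atTop_mono' _ ?_ (Filter.tendsto_id.const_mul_atTop hm0)
    filter_upwards [Filter.eventually_ge_atTop (0 : ℝ)] with x hx
    have h1 := hlow 0 x hx
    simp only [id]
    rw [hF0] at h1
    linarith
  have hbot : Filter.Tendsto F Filter.atBot Filter.atBot := by
    refine Filter.tendsto_atBot_mono' _ ?_ (Filter.tendsto_id.const_mul_atBot hm0)
    filter_upwards [Filter.eventually_le_atBot (0 : ℝ)] with x hx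
    have h1 := hlow x 0 hx
    simp only [id]
    rw [hF0] at h1
    linarith
  have hsurj : Function.Surjective F := hFc.surjective htop hbot
  let e : ℝ ≃o ℝ := hmono.orderIsoOfSurjective F hsurj
  have hecoe : ∀ x, e x = F x := fun x => rfl
  have hse : ∀ y, F (e.symm y) = y := fun y => by
    rw [← hecoe]; exact e.apply_symm_apply y
  refine ⟨fun u => e.symm (∫ r in (-a)..u, w r), ?_, ?_⟩
  · exact e.symm.continuous.comp (intervalIntegral.continuous_primitive hwi (-a))
  · intro u hu
    obtain ⟨s, hs⟩ : ∃ s, s = e.symm (∫ r in (-a)..u, w r) := ⟨_, rfl⟩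
    have hFs : F s = ∫ r in (-a)..u, w r := by rw [hs]; exact hse _
    have hvw : ∀ x ∈ Icc (0 : ℝ) a, F x = ∫ r in (0 : ℝ)..x, w r := by
      intro x hx
      rw [hFdef]
      refine intervalIntegral.integral_congr ?_
      intro r hr
      rw [uIcc_of_le hx.1] at hr
      show v r = w r
      rw [hvdef, min_eq_left (hr.2.trans hx.2), max_eq_right hr.1]
    have hnn : ∀ x y : ℝ, x ≤ y → 0 ≤ ∫ r in x..y, w r := fun x y hxy =>
      intervalIntegral.integral_nonneg hxy (fun r _ => (hpos r).le)
    have hsplit : (∫ r in (-a)..u, w r) + (∫ r in u..(0 : ℝ), w r) = ∫ r in (-a)..(0 : ℝ), w r :=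
      intervalIntegral.integral_add_adjacent_intervals (hwi _ _) (hwi _ _)
    have hev : ∫ r in (-a)..(0 : ℝ), w r = ∫ r in (0 : ℝ)..a, w r := by
      have h1 : ∫ r in (0 : ℝ)..a, w (-r) = ∫ r in (-a)..(-(0 : ℝ)), w r :=
        intervalIntegral.integral_comp_neg w
      rw [neg_zero] at h1
      rw [← h1]
      exact intervalIntegral.integral_congr (fun r _ => heven r)
    have hFa : F a = ∫ r in (0 : ℝ)..a, w r := hvw a ⟨ha.le, le_rfl⟩
    have hs0 : 0 ≤ s := by
      by_contra hcon
      have h1 : F s < F 0 := hmono (lt_of_not_ge hcon)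
      have h2 := hnn (-a) u hu.1
      rw [hF0, hFs] at h1
      linarith
    have hsa : s ≤ a := by
      by_contra hcon
      have h1 : F a < F s := hmono (lt_of_not_ge hcon)
      have h2 := hnn u 0 hu.2
      rw [hFa, hFs] at h1
      linarith
    show e.symm (∫ r in (-a)..u, w r) ∈ Icc 0 a ∧ u < e.symm (∫ r in (-a)..u, w r) ∧
      ∫ r in (-a)..u, w r = ∫ r in (0 : ℝ)..(e.symm (∫ r in (-a)..u, w r)), w r
    rw [← hs]
    refine ⟨⟨hs0, hsa⟩, ?_, ?_⟩
    · rcases lt_or_eq_of_le hu.2 with h | h
      · exact lt_of_lt_of_le h hs0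
      · subst h
        rcases lt_or_eq_of_le hs0 with h' | h'
        · exact h'
        · exfalso
          rw [← h', hF0] at hFs
          have h3 := hlow 0 a ha.le
          rw [hF0, hFa, ← hev, ← hFs] at h3
          have h4 : 0 < w x0 * (a - 0) := mul_pos hm0 (by linarith)
          linarith
    · rw [← hvw s ⟨hs0, hsa⟩, hFs]

end Pool.Agent.CRO
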